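import Pool.Agent.K1H88.T3.Stm

/-! # Project T3, piece FIB -/

set_option autoImplicit false

namespace Pool.Agent.K1H80.T3

open Finset Pool.Agent.K1H88.T3

/-- a bounded order-convex set of integers is an interval -/
theorem conv_ioc (p : ℤ → Prop) (l u : ℤ) (hlu : l - 1 ≤ u) (hb : ∀ b, p b → l ≤ b ∧ b ≤ u)
    (hc : ∀ b1 b b2, b1 ≤ b → b ≤ b2 → p b1 → p b2 → p b) :
    ∃ s t : ℤ, l - 1 ≤ s ∧ s ≤ t ∧ t ≤ u ∧ ∀ b, p b ↔ (s < b ∧ b ≤ t) := by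
  by_cases h : ∃ b, p b
  · obtain ⟨m, hm, hm'⟩ := Int.exists_least_of_bdd (P := p) ⟨l, fun z hz => (hb z hz).1⟩ h
    obtain ⟨M, hM, hM'⟩ := Int.exists_greatest_of_bdd (P := p) ⟨u, fun z hz => (hb z hz).2⟩ h
    have h1 := hm' M hM
    refine ⟨m - 1, M, by have := (hb m hm).1; omega, by omega, (hb M hM).2, fun b => ?_⟩
    constructor
    · intro hpb
      have := hm' b hpb
      have := hM' b hpb
      omega
    · rintro ⟨h2, h3⟩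
      exact hc m b M (by omega) h3 hm hM
  · refine ⟨l - 1, l - 1, le_rfl, le_rfl, hlu, fun b => ?_⟩
    constructor
    · intro hpb
      exact absurd ⟨b, hpb⟩ h
    · rintro ⟨h2, h3⟩
      omega

theorem quad_conv (β γ c b1 b b2 : ℝ) (h1 : b1 ≤ b) (h2 : b ≤ b2)
    (e1 : 216 * b1 ^ 2 + β * b1 + γ ≤ c) (e2 : 216 * b2 ^ 2 + β * b2 + γ ≤ c) :
    216 * b ^ 2 + β * b + γ ≤ c := by
  rcases eq_or_lt_of_le (h1.trans h2) with h | h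
  · have : b = b1 := by linarith
    rw [this]
    exact e1
  · have h3 : (b2 - b1) * (216 * b ^ 2 + β * b + γ) ≤ (b2 - b1) * c := by
      have k1 := mul_le_mul_of_nonneg_left e1 (sub_nonneg.2 h2)
      have k2 := mul_le_mul_of_nonneg_left e2 (sub_nonneg.2 h1)
      have k3 : 0 ≤ 216 * ((b - b1) * (b2 - b) * (b2 - b1)) := by
        have : 0 ≤ (b - b1) * (b2 - b) * (b2 - b1) :=
          mul_nonneg (mul_nonneg (sub_nonneg.2 h1) (sub_nonneg.2 h2)) (sub_nonneg.2 h.le)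
        linarith
      nlinarith
    exact le_of_mul_le_mul_left h3 (sub_pos.2 h)

theorem lin_conv (α β c b1 b b2 : ℝ) (h1 : b1 ≤ b) (h2 : b ≤ b2) (e1 : |α + β * b1| ≤ c)
    (e2 : |α + β * b2| ≤ c) : |α + β * b| ≤ c := by
  rw [abs_le] at *
  rcases le_total 0 β with h | h
  · have k1 := mul_le_mul_of_nonneg_left h1 h
    have k2 := mul_le_mul_of_nonneg_left h2 h
    constructor <;> linarith [e1.1, e2.2]
  · have k1 := mul_le_mul_of_nonpos_left h1 h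
    have k2 := mul_le_mul_of_nonpos_left h2 h
    constructor <;> linarith [e1.2, e2.1]

theorem F4_eq (a b : ℤ) : (F4 a b : ℝ) = (a : ℝ) ^ 4 + (-24 * (a : ℝ)) * b := by
  unfold F4; push_cast; ring

theorem F6_eq (a b : ℤ) : -(F6 a b : ℝ) = 216 * (b : ℝ) ^ 2 + (-36 * (a : ℝ) ^ 3) * b + (a : ℝ) ^ 6 := by
  unfold F6; push_cast; ring

/-- the larger interval -/
def II (N : ℕ) (Y : ℝ) (sb sE a b : ℤ) : Prop :=
  (-(N : ℤ) ^ 3 ≤ b ∧ b ≤ (N : ℤ) ^ 3) ∧ |(F4 a b : ℝ)| ≤ Y ^ 4 ∧ -(F6 a b : ℝ) ≤ Y ^ 6 ∧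
    0 < sb * b ∧ 0 < sE * EE a b

/-- the smaller interval -/
def JJ (N : ℕ) (Y : ℝ) (sb sE a b : ℤ) : Prop := II N Y sb sE a b ∧ -(F6 a b : ℝ) < -Y ^ 6

theorem II_conv (N : ℕ) (Y : ℝ) (sb sE a : ℤ) (hsb : sb = 1 ∨ sb = -1) (hsE : sE = 1 ∨ sE = -1)
    (b1 b b2 : ℤ) (h1 : b1 ≤ b) (h2 : b ≤ b2) (k1 : II N Y sb sE a b1) (k2 : II N Y sb sE a b2) :
    II N Y sb sE a b := by
  obtain ⟨⟨k11, k12⟩, k13, k14, k15, k16⟩ := k1
  obtain ⟨⟨k21, k22⟩, k23, k24, k25, k26⟩ := k2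
  have r1 : (b1 : ℝ) ≤ b := by exact_mod_cast h1
  have r2 : (b : ℝ) ≤ b2 := by exact_mod_cast h2
  refine ⟨⟨by omega, by omega⟩, ?_, ?_, ?_, ?_⟩
  · rw [F4_eq] at *
    exact lin_conv _ _ _ _ _ _ r1 r2 k13 k23
  · rw [F6_eq] at *
    exact quad_conv _ _ _ _ _ _ r1 r2 k14 k24
  · rcases hsb with rfl | rfl <;> omega
  · unfold EE at *
    rcases hsE with rfl | rfl <;> omega

theorem JJ_conv (N : ℕ) (Y : ℝ) (sb sE a : ℤ) (hsb : sb = 1 ∨ sb = -1) (hsE : sE = 1 ∨ sE = -1)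
    (b1 b b2 : ℤ) (h1 : b1 ≤ b) (h2 : b ≤ b2) (k1 : JJ N Y sb sE a b1) (k2 : JJ N Y sb sE a b2) :
    JJ N Y sb sE a b := by
  refine ⟨II_conv N Y sb sE a hsb hsE b1 b b2 h1 h2 k1.1 k2.1, ?_⟩
  have r1 : (b1 : ℝ) ≤ b := by exact_mod_cast h1
  have r2 : (b : ℝ) ≤ b2 := by exact_mod_cast h2
  have e1 := k1.2
  have e2 := k2.2
  rw [F6_eq] at *
  have h3 := quad_conv _ _ _ _ _ _ r1 r2 (le_max_left _ _ : _ ≤ max
    (216 * (b1 : ℝ) ^ 2 + (-36 * (a : ℝ) ^ 3) * b1 + (a : ℝ) ^ 6)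
    (216 * (b2 : ℝ) ^ 2 + (-36 * (a : ℝ) ^ 3) * b2 + (a : ℝ) ^ 6)) (le_max_right _ _)
  exact h3.trans_lt (max_lt e1 e2)

/-- **Piece FIB.** -/
theorem t_FIB (hB : S_BOX) : S_FIB := by
  intro N Y hY hYN sb sE hsb hsE a
  have hN3 : (0 : ℤ) ≤ (N : ℤ) ^ 3 := by positivity
  obtain ⟨s, t, hs, hst, ht, hI⟩ := conv_ioc (II N Y sb sE a) (-(N : ℤ) ^ 3) ((N : ℤ) ^ 3) (by omega)
    (fun b hb => hb.1) (fun b1 b b2 => II_conv N Y sb sE a hsb hsE b1 b b2)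
  obtain ⟨s', t', hs', hst', ht', hJ⟩ := conv_ioc (JJ N Y sb sE a) (s + 1) t (by omega)
    (fun b hb => by have := (hI b).1 hb.1; omega) (fun b1 b b2 => JJ_conv N Y sb sE a hsb hsE b1 b b2)
  refine ⟨s, t, s', t', hs, hst, ht, by omega, hst', ht', fun b => ?_⟩
  rw [← hI b, ← hJ b]
  constructor
  · rintro ⟨⟨h1, h2⟩, h3, h4⟩
    have h5 := (hB Y a b (by linarith) ⟨h1, h2⟩).2
    have h6 : Y ^ 3 ≤ (N : ℝ) ^ 3 := pow_le_pow_left₀ (by linarith) hYN 3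
    have h7 := abs_le.1 (h5.trans h6)
    have h8 := abs_le.1 h2
    refine ⟨⟨⟨?_, ?_⟩, h1, by linarith, h3, h4⟩, ?_⟩
    · have : (-(N : ℝ) ^ 3) ≤ b := by linarith [h7.1]
      exact_mod_cast this
    · exact_mod_cast h7.2
    · rintro ⟨-, h9⟩
      linarith [h8.2]
  · rintro ⟨⟨h1, h2, h3, h4, h5⟩, h6⟩
    refine ⟨⟨h2, ?_⟩, h4, h5⟩
    rw [abs_le]
    constructor
    · linarith
    · by_contra hc
      push Not at hc
      exact h6 ⟨⟨h1, h2, h3, h4, h5⟩, by linarith⟩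

end Pool.Agent.K1H80.T3
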